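import Mathlib
import Pool.Agent.H551Z.NDF

/-!
Products of two elements of the augmentation ideal of the convolution algebra of absolutely
summable functions on the free group on two generators are not dense in the ideal.
-/

set_option autoImplicit false

namespace Pool.Agent.Results.MP_11aa79_an.NotDense

/-- Membership in the augmentation ideal of the algebra of absolutely summable functions on the
free group on two generators: absolutely summable with sum zero. -/
def InI0 (f : FreeGroup (Fin 2) → ℂ) : Prop :=
  Summable (fun g => ‖f g‖) ∧ ∑' g, f g = 0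

/-- The convolution product. -/
noncomputable def convProd (b c : FreeGroup (Fin 2) → ℂ) : FreeGroup (Fin 2) → ℂ :=
  fun x => ∑' g, b g * c (g⁻¹ * x)

/-- Some ball of positive radius around an element of the augmentation ideal contains no product
of two elements of the ideal. -/
theorem result :
    ∃ a : FreeGroup (Fin 2) → ℂ, InI0 a ∧ ∃ ε : ℝ, 0 < ε ∧
      ∀ b c : FreeGroup (Fin 2) → ℂ, InI0 b → InI0 c →
        Summable (fun g => ‖convProd b c g - a g‖) ∧ ε ≤ ∑' g, ‖convProd b c g - a g‖ := by
  obtain ⟨z, -, h1, h2, h3⟩ := Pool.Agent.H551Z.ND.not_dense'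
  refine ⟨z, ⟨h1, h2⟩, 1 / 60000000, by norm_num, fun b c hb hc => ⟨?_, ?_⟩⟩
  · exact ((NotFactor.Main.summable_cv hb.1 hc.1).of_norm.sub h1.of_norm).norm
  · exact h3 b c hb.1 hb.2 hc.1 hc.2

end Pool.Agent.Results.MP_11aa79_an.NotDense
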